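import Mathlib
import Pool.Agent.H431Z.LD.Defs
import Pool.Agent.H431Z.LD.Final

set_option autoImplicit false

namespace Pool.Agent.Results.MP_e427d9_lc.ADepthNotComputable

open Pool.Agent.H431Z.LD

/-- The logical depth of finite graphs is not computable: no algorithm (even one that need only halt
on adjacency matrices) returns `D(G)` from the adjacency matrix of every nonempty finite graph `G`. -/
theorem result : ¬ ∃ f : List (List Bool) →. ℕ, Partrec f ∧
    ∀ (n : ℕ) (G : SimpleGraph (Fin n)), 0 < n → logicalDepth G ∈ f (adjRows G) :=
  depth_not_computable

end Pool.Agent.Results.MP_e427d9_lc.ADepthNotComputable
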